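import Pool.Agent.Helper49.W4.Gc

/-!
# The steps for `E`
-/

set_option autoImplicit false

namespace Pool.Agent.Helper49.W4

open Polynomial IntermediateField Module Pool.Agent.Helper40.W4

/-- the algebra generated by a square root is algebraic -/
lemma isAlgebraic_of_sqrt {E k : Type} [Field E] [Field k] [Algebra E k] {c : E} {s : k}
    (hs : s ^ 2 = algebraMap E k c) (htop : adjoin E {s} = ⊤) : Algebra.IsAlgebraic E k := by
  have hint : IsIntegral E s := ⟨X ^ 2 - C c, monic_X_pow_sub_C c (by norm_num), by simp [hs]⟩
  have h := isAlgebraic_adjoin_simple hint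
  rw [htop] at h
  exact ⟨fun x => by
    have := h.isAlgebraic (⟨x, trivial⟩ : (⊤ : IntermediateField E k))
    exact (isAlgebraic_algebraMap_iff (A := k)
      (algebraMap (⊤ : IntermediateField E k) k).injective).2 this⟩

/-- transcendence in the tower -/
lemma transcendental_aux {E E' k k' : Type} [Field E] [Field E'] [Field k] [Field k']
    [Algebra E E'] [Algebra E k] [Algebra E k'] [Algebra E' k'] [Algebra k k']
    [IsScalarTower E k k'] [IsScalarTower E E' k'] [Algebra.IsAlgebraic E k] {u : E'}
    (hu : Transcendental E u) : Transcendental k (algebraMap E' k' u) := by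
  intro h
  have h2 : IsAlgebraic E (algebraMap E' k' u) := IsAlgebraic.restrictScalars E h
  exact hu ((isAlgebraic_algebraMap_iff (algebraMap E' k').injective).1 h2)

theorem grat_thm (hrat : S_RAT) : S_GRAT := by
  intro E E' _ _ _ _ a c h u hu htop
  refine GE_of a c h (not_isSquare_rat u hu htop h.1) ?_
  intro k k' _ _ _ _ _ _ _ _ s hs hst hst' σ σ' hσ hgood
  haveI : CharZero k := charZero_of_injective_algebraMap (algebraMap E k).injective
  haveI := isAlgebraic_of_sqrt hs hst
  refine hrat k k' _ s σ σ' hσ hgood (algebraMap E' k' u) (transcendental_aux hu) ?_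
  have := adjoin_top_aux (k' := k') {u} htop s hst'
  rwa [Set.image_singleton] at this

theorem gcon_thm (hcon : S_CON) : S_GCON := by
  intro E E' _ _ _ _ a c h α β x y hα hβ hy hxy htop
  refine GE_of a c h (not_isSquare_con h.1 α β x y hα hβ hy hxy htop) ?_
  intro k k' _ _ _ _ _ _ _ _ s hs hst hst' σ σ' hσ hgood
  haveI : CharZero k := charZero_of_injective_algebraMap (algebraMap E k).injective
  haveI := isAlgebraic_of_sqrt hs hst
  refine hcon k k' _ s σ σ' hσ hgood (algebraMap E k α) (algebraMap E k β)
    (algebraMap E' k' x) (algebraMap E' k' y) ?_ ?_ (transcendental_aux hy) ?_ ?_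
  · rwa [Ne, map_eq_zero]
  · rwa [Ne, map_eq_zero]
  · rw [← map_pow, hxy]
    simp only [map_add, map_mul, map_pow, ← IsScalarTower.algebraMap_apply]
  · have := adjoin_top_aux (k' := k') {x, y} htop s hst'
    rwa [Set.image_pair] at this

theorem godd_thm (hoddt : S_ODD) : S_GODD := by
  intro E E' _ _ _ _ a c h hfd hodd
  have hcE' := not_isSquare_odd h.1 hodd
  refine GE_of a c h hcE' ?_
  intro k k' _ _ _ _ _ _ _ _ s hs hst hst' σ σ' hσ hgood
  haveI : CharZero k := charZero_of_injective_algebraMap (algebraMap E k).injective
  have h2 : finrank E k = 2 := by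
    have := finrank_sqrt h.1 s hs
    rw [hst, IntermediateField.finrank_top'] at this
    exact this
  have h2' : finrank E' k' = 2 := by
    have := finrank_sqrt hcE' (algebraMap k k' s) (by
      rw [← map_pow, hs]
      simp only [← IsScalarTower.algebraMap_apply])
    rw [hst', IntermediateField.finrank_top'] at this
    exact this
  haveI : FiniteDimensional E' k' := FiniteDimensional.of_finrank_pos (by rw [h2']; norm_num)
  haveI : FiniteDimensional E k' := FiniteDimensional.trans E E' k'
  haveI : FiniteDimensional k k' := FiniteDimensional.right E k k'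
  have h3 : finrank E k * finrank k k' = finrank E E' * finrank E' k' := by
    rw [finrank_mul_finrank, finrank_mul_finrank]
  rw [h2, h2'] at h3
  have h4 : finrank k k' = finrank E E' := by omega
  exact hoddt k k' _ s σ σ' hσ hgood inferInstance (by rw [h4]; exact hodd)

/-- Independence of two elements. -/
lemma algInd_two {R A : Type} [CommRing R] [CommRing A] [Algebra R A] (x y : A) :
    AlgebraicIndependent R ![x, y] ↔
      Transcendental R x ∧ Transcendental (Algebra.adjoin R {x}) y := by
  have h1 : AlgebraicIndependent R ![x, y] ↔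
      AlgebraicIndependent R (fun o : Option (Fin 1) => o.elim y ![x]) := by
    let e : Option (Fin 1) ≃ Fin 2 := (finSuccEquiv' (1 : Fin 2)).symm
    rw [← algebraicIndependent_equiv e]
    have h2 : (![x, y] ∘ e) = (fun o : Option (Fin 1) => o.elim y ![x]) := by
      funext o
      rcases o with _ | j
      · simp [e]
      · have hj : j = 0 := Subsingleton.elim _ _
        subst hj
        simp [e]
    rw [h2]
  rw [h1, AlgebraicIndependent.option_iff]
  have h3 : AlgebraicIndependent R ![x] ↔ Transcendental R x := by
    rw [algebraicIndependent_unique_type_iff]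
    rfl
  rw [h3]
  have h4 : Set.range ![x] = {x} := by simp
  rw [h4]

theorem gbase_thm (hbase : S_BASE) : S_GBASE := by
  intro E _ _ i a c hi hac htop
  obtain ⟨ha, hc⟩ := (algInd_two a c).1 hac
  -- c is transcendental over ℚ(i, a)
  have hcF : Transcendental (adjoin ℚ {a}) c :=
    (IntermediateField.transcendental_adjoin_iff).2 hc
  set A : IntermediateField (adjoin ℚ {a}) E := algebraicClosure (adjoin ℚ {a}) E with hA
  have hcA : Transcendental A c := by
    intro h
    refine hcF ?_
    exact IsAlgebraic.restrictScalars (adjoin ℚ {a}) h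
  set K : IntermediateField ℚ E := adjoin ℚ {i, a} with hK
  have hKA : K ≤ A.restrictScalars ℚ := by
    rw [hK, adjoin_le_iff]
    intro z hz
    rw [SetLike.mem_coe, IntermediateField.mem_restrictScalars, hA, mem_algebraicClosure_iff]
    rcases hz with hz | hz
    · rw [hz]
      have : IsIntegral (adjoin ℚ {a}) i := ⟨X ^ 2 - C (-1), monic_X_pow_sub_C _ (by norm_num), by
        simp [hi]⟩
      exact this.isAlgebraic
    · rw [hz]
      exact isAlgebraic_algebraMap (⟨a, mem_adjoin_simple_self ℚ a⟩ : adjoin ℚ {a})
  have hcK : Transcendental K c := by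
    rintro ⟨p, hp0, hp⟩
    refine hcA ?_
    let f : K →+* A :=
      { toFun := fun x => ⟨x.1, hKA x.2⟩
        map_one' := rfl
        map_mul' := fun _ _ => rfl
        map_zero' := rfl
        map_add' := fun _ _ => rfl }
    refine ⟨p.map f, ?_, ?_⟩
    · rw [Ne, Polynomial.map_eq_zero_iff f.injective]
      exact hp0
    · rw [aeval_def, eval₂_map]
      exact hp
  have htopK : adjoin K {c} = ⊤ := by
    have h1 : (adjoin K {c}).restrictScalars ℚ = ⊤ := by
      rw [eq_top_iff, ← htop, adjoin_le_iff]
      intro z hz
      rw [SetLike.mem_coe, IntermediateField.mem_restrictScalars]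
      rcases hz with hz | hz | hz
      · rw [hz]
        exact IntermediateField.algebraMap_mem (adjoin K {c})
          (⟨i, subset_adjoin ℚ _ (Or.inl rfl)⟩ : K)
      · rw [hz]
        exact IntermediateField.algebraMap_mem (adjoin K {c})
          (⟨a, subset_adjoin ℚ _ (Or.inr rfl)⟩ : K)
      · rw [hz]; exact mem_adjoin_simple_self _ _
    exact (IntermediateField.restrictScalars_eq_top_iff).1 h1
  have hcns : ¬ IsSquare c := by
    rintro ⟨v, hv⟩
    have hv' : v ∈ adjoin K {c} := by rw [htopK]; trivial
    refine ratFunc_X_not_isSquare ⟨(ratEquiv c hcK).symm ⟨v, hv'⟩, ?_⟩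
    apply (ratEquiv c hcK).injective
    rw [map_mul, AlgEquiv.apply_symm_apply]
    apply Subtype.ext
    rw [ratEquiv_X]
    exact hv
  refine ⟨hcns, ?_⟩
  intro k _ _ s hs hst σ hσ
  haveI : CharZero k := charZero_of_injective_algebraMap (algebraMap E k).injective
  haveI := isAlgebraic_of_sqrt hs hst
  refine hbase k (algebraMap E k i) (algebraMap E k a) s ?_ ?_ ?_ σ.toRingEquiv ?_ ?_ hσ
  · rw [← map_pow, hi]; simp
  · -- independence
    rw [algInd_two]
    constructor
    · intro h
      exact ha ((isAlgebraic_algebraMap_iff (algebraMap E k).injective).1 h)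
    · intro h
      have h1 : IsAlgebraic (Algebra.adjoin ℚ {algebraMap E k a}) (algebraMap E k c) := by
        rw [← hs]; exact h.pow 2
      -- transport to E
      have h2 : AlgebraicIndependent ℚ ![algebraMap E k a, algebraMap E k c] := by
        have := hac.map' (f := IsScalarTower.toAlgHom ℚ E k) (algebraMap E k).injective
        convert! this using 1
        funext j
        fin_cases j <;> rfl
      exact ((algInd_two _ _).1 h2).2 h1
  · -- generation
    set T := adjoin ℚ {algebraMap E k i, algebraMap E k a, s} with hT
    have h1 : ∀ x : E, algebraMap E k x ∈ T := by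
      intro x
      have h2 : adjoin ℚ {i, a, c} ≤ T.comap (IsScalarTower.toAlgHom ℚ E k) := by
        rw [adjoin_le_iff]
        intro z hz
        show algebraMap E k z ∈ T
        rcases hz with hz | hz | hz
        · rw [hz]; exact subset_adjoin ℚ _ (Or.inl rfl)
        · rw [hz]; exact subset_adjoin ℚ _ (Or.inr (Or.inl rfl))
        · rw [hz, ← hs]
          have h5 : s ∈ T := subset_adjoin ℚ _ (Or.inr (Or.inr rfl))
          exact pow_mem h5 2
      rw [htop] at h2
      exact h2 (trivial : x ∈ (⊤ : IntermediateField ℚ E))
    have h3 : adjoin E {s} ≤ T.toSubfield.toIntermediateField h1 := by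
      rw [adjoin_le_iff, Set.singleton_subset_iff]
      exact subset_adjoin ℚ _ (Or.inr (Or.inr rfl))
    rw [hst] at h3
    rw [eq_top_iff]
    intro z _
    exact h3 (trivial : z ∈ (⊤ : IntermediateField E k))
  · exact σ.commutes i
  · exact σ.commutes a

end Pool.Agent.Helper49.W4
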