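import Pool.Agent.Helper40.W4.Spec

/-!
# The steps for `E`: preliminaries
-/

set_option autoImplicit false

namespace Pool.Agent.Helper49.W4

open Polynomial IntermediateField Module Pool.Agent.Helper40.W4

/-- constants that are squares in `F(X)` are squares in `F` -/
lemma ratFunc_isSquare {F : Type} [Field F] {c : F} (h : IsSquare (RatFunc.C c)) : IsSquare c := by
  obtain ⟨v, hv⟩ := h
  have h1 : IsIntegral F[X] (v ^ 2) := by
    rw [pow_two, ← hv, ← RatFunc.algebraMap_C]
    exact isIntegral_algebraMap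
  obtain ⟨g, hg⟩ := IsIntegrallyClosed.exists_algebraMap_eq_of_isIntegral_pow (by norm_num) h1
  rw [← hg, ← map_mul, ← RatFunc.algebraMap_C] at hv
  have h2 : C c = g * g := (RatFunc.algebraMap_injective F) hv
  have h3 := congrArg (eval 0) h2
  rw [eval_C, eval_mul] at h3
  exact ⟨_, h3⟩

/-- `c * (α X² + β)` is not a square in `F(X)` -/
lemma ratFunc_not_isSquare_quad {F : Type} [Field F] [CharZero F] {c α β : F} (hc : c ≠ 0)
    (hα : α ≠ 0) (hβ : β ≠ 0) :
    ¬ IsSquare (RatFunc.C c * (RatFunc.C α * RatFunc.X ^ 2 + RatFunc.C β)) := by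
  rintro ⟨v, hv⟩
  have h0 : RatFunc.C c * (RatFunc.C α * RatFunc.X ^ 2 + RatFunc.C β) =
      algebraMap F[X] (RatFunc F) (C c * (C α * X ^ 2 + C β)) := by
    simp
  rw [h0] at hv
  have h1 : IsIntegral F[X] (v ^ 2) := by
    rw [pow_two, ← hv]
    exact isIntegral_algebraMap
  obtain ⟨g, hg⟩ := IsIntegrallyClosed.exists_algebraMap_eq_of_isIntegral_pow (by norm_num) h1
  rw [← hg, ← map_mul] at hv
  have h2 : C c * (C α * X ^ 2 + C β) = g * g := (RatFunc.algebraMap_injective F) hv
  -- derivative: g | 2 c α X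
  have h3 := congrArg derivative h2
  have hdeg : (C c * (C α * X ^ 2 + C β)).natDegree = 2 := by
    rw [natDegree_C_mul hc]
    rw [natDegree_add_C, natDegree_C_mul_X_pow 2 α hα]
  have hg1 : g.natDegree = 1 := by
    have := congrArg natDegree h2
    have hg0 : g ≠ 0 := by
      rintro rfl
      rw [hdeg] at this
      simp at this
    rw [hdeg, natDegree_mul hg0 hg0] at this
    omega
  rw [Polynomial.eq_X_add_C_of_natDegree_le_one (le_of_eq hg1)] at h2
  have e0 := congrArg (eval 0) h2
  have e1 := congrArg (eval 1) h2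
  have e2 := congrArg (eval (-1)) h2
  simp only [eval_mul, eval_add, eval_C, eval_pow, eval_X] at e0 e1 e2
  -- c β = g0², c(α+β) = (g1+g0)², c(α+β) = (-g1+g0)²
  have hg0 : g.coeff 0 * g.coeff 1 = 0 := by
    have : (4 : F) * (g.coeff 0 * g.coeff 1) = 0 := by linear_combination e2 - e1
    exact (mul_eq_zero.1 this).resolve_left (by norm_num)
  rcases mul_eq_zero.1 hg0 with h | h
  · rw [h] at e0
    have : c * β = 0 := by linear_combination e0
    rcases mul_eq_zero.1 this with h | h
    · exact hc h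
    · exact hβ h
  · have : g.leadingCoeff ≠ 0 := by
      rw [Ne, leadingCoeff_eq_zero]
      rintro rfl
      simp at hg1
    rw [leadingCoeff, hg1] at this
    exact this h

/-- `X` is not a square in `F(X)` -/
lemma ratFunc_X_not_isSquare {F : Type} [Field F] : ¬ IsSquare (RatFunc.X : RatFunc F) := by
  rintro ⟨v, hv⟩
  have h1 : IsIntegral F[X] (v ^ 2) := by
    rw [pow_two, ← hv, ← RatFunc.algebraMap_X]
    exact isIntegral_algebraMap
  obtain ⟨g, hg⟩ := IsIntegrallyClosed.exists_algebraMap_eq_of_isIntegral_pow (by norm_num) h1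
  rw [← hg, ← map_mul, ← RatFunc.algebraMap_X] at hv
  have h2 : X = g * g := (RatFunc.algebraMap_injective F) hv
  have := congrArg natDegree h2
  have hg0 : g ≠ 0 := by
    rintro rfl
    simp at h2
  rw [natDegree_X, natDegree_mul hg0 hg0] at this
  omega

/-- The isomorphism with the rational function field. -/
noncomputable def ratEquiv {E E' : Type} [Field E] [Field E'] [Algebra E E'] (u : E')
    (hu : Transcendental E u) : RatFunc E ≃ₐ[E] E⟮u⟯ := RatFunc.algEquivOfTranscendental u hu

lemma ratEquiv_X {E E' : Type} [Field E] [Field E'] [Algebra E E'] (u : E')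
    (hu : Transcendental E u) : (ratEquiv u hu RatFunc.X : E') = u := by
  simp [ratEquiv, RatFunc.algEquivOfTranscendental_X]

lemma ratEquiv_X' {E E' : Type} [Field E] [Field E'] [Algebra E E'] (u : E')
    (hu : Transcendental E u) : algebraMap E⟮u⟯ E' (ratEquiv u hu RatFunc.X) = u := by
  rw [IntermediateField.algebraMap_apply]
  exact ratEquiv_X u hu

/-- Constants stay nonsquares in a purely transcendental extension. -/
lemma not_isSquare_adjoin {E E' : Type} [Field E] [Field E'] [Algebra E E'] (u : E')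
    (hu : Transcendental E u) {c : E} (hc : ¬ IsSquare c) : ¬ IsSquare (algebraMap E E⟮u⟯ c) := by
  rintro ⟨v, hv⟩
  refine hc (ratFunc_isSquare ⟨(ratEquiv u hu).symm v, ?_⟩)
  rw [← map_mul, ← hv]
  rw [show algebraMap E (E⟮u⟯) c = ratEquiv u hu (algebraMap E (RatFunc E) c) from
    ((ratEquiv u hu).commutes c).symm]
  rw [AlgEquiv.symm_apply_apply]
  rfl

lemma not_isSquare_rat {E E' : Type} [Field E] [Field E'] [Algebra E E'] (u : E')
    (hu : Transcendental E u) (htop : E⟮u⟯ = ⊤) {c : E} (hc : ¬ IsSquare c) :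
    ¬ IsSquare (algebraMap E E' c) := by
  rintro ⟨v, hv⟩
  refine not_isSquare_adjoin u hu hc ⟨⟨v, by rw [htop]; trivial⟩, ?_⟩
  apply Subtype.ext
  exact hv

/-- elements of a quadratic extension -/
lemma exists_lin {F E' : Type} [Field F] [Field E'] [Algebra F E'] (x : E') (d : F)
    (hx : x ^ 2 = algebraMap F E' d) (htop : F⟮x⟯ = ⊤) (v : E') :
    ∃ p q : F, v = algebraMap F E' p + algebraMap F E' q * x := by
  have hint : IsIntegral F x := ⟨X ^ 2 - C d, monic_X_pow_sub_C d (by norm_num), by
    simp [hx]⟩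
  have h1 : v ∈ (F⟮x⟯).toSubalgebra := by rw [htop]; trivial
  rw [IntermediateField.adjoin_simple_toSubalgebra_of_isAlgebraic hint.isAlgebraic] at h1
  obtain ⟨P, rfl⟩ := Algebra.adjoin_singleton_eq_range_aeval F x ▸ h1
  set R := P %ₘ (X ^ 2 - C d) with hR
  have hm : (X ^ 2 - C d : F[X]).Monic := monic_X_pow_sub_C d (by norm_num)
  have h2 : aeval x P = aeval x R := by
    have := Polynomial.modByMonic_add_div P (X ^ 2 - C d)
    conv_lhs => rw [← this]
    simp [hx, hR]
  have hdeg : R.natDegree ≤ 1 := by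
    have h3 : R.degree < 2 := by
      have := Polynomial.degree_modByMonic_lt P hm
      rwa [degree_X_pow_sub_C (by norm_num) d] at this
    by_contra hcon
    have h4 : R ≠ 0 := by
      rintro h5
      rw [h5] at hcon
      simp at hcon
    rw [degree_eq_natDegree h4] at h3
    have h5 : R.natDegree < 2 := by exact_mod_cast h3
    omega
  refine ⟨R.coeff 0, R.coeff 1, ?_⟩
  show aeval x P = _
  rw [h2]
  conv_lhs => rw [Polynomial.eq_X_add_C_of_natDegree_le_one hdeg]
  simp
  ring

/-- A nonsquare stays a nonsquare in the function field of a conic: abstract version. -/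
lemma not_isSquare_con_aux {E F E' : Type} [Field E] [Field F] [Field E'] [CharZero E]
    [Algebra E F] [Algebra F E'] (e : RatFunc E ≃ₐ[E] F) {c : E}
    (hc : ¬ IsSquare c) (α β : E) (x : E') (hα : α ≠ 0) (hβ : β ≠ 0)
    (hxD : x ^ 2 = algebraMap F E' (algebraMap E F α * (e RatFunc.X) ^ 2 + algebraMap E F β))
    (htop' : F⟮x⟯ = ⊤) :
    ¬ IsSquare (algebraMap F E' (algebraMap E F c)) := by
  rintro ⟨v, hv⟩
  haveI : CharZero F := charZero_of_injective_ringHom (algebraMap E F).injective
  set D : F := algebraMap E F α * (e RatFunc.X) ^ 2 + algebraMap E F β with hD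
  have hcy : ¬ IsSquare (algebraMap E F c) := by
    rintro ⟨w, hw⟩
    refine hc (ratFunc_isSquare ⟨e.symm w, ?_⟩)
    apply e.injective
    rw [← map_mul, e.apply_symm_apply, ← hw]
    exact e.commutes c
  obtain ⟨p, q, hpq⟩ := exists_lin x D hxD htop' v
  have h1 : algebraMap F E' (algebraMap E F c) =
      algebraMap F E' (p ^ 2 + q ^ 2 * D) + algebraMap F E' (2 * p * q) * x := by
    rw [hv, hpq]
    simp only [map_add, map_mul, map_pow, map_ofNat]
    rw [← hxD]
    ring
  by_cases hpq0 : p * q = 0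
  · rcases mul_eq_zero.1 hpq0 with hp | hq
    · -- p = 0
      have h2 : algebraMap E F c = q ^ 2 * D := by
        apply (algebraMap F E').injective
        rw [h1, hp]
        simp
      have hc0 : c ≠ 0 := by
        rintro rfl
        exact hc ⟨0, by simp⟩
      refine ratFunc_not_isSquare_quad hc0 hα hβ ⟨e.symm (q * D), ?_⟩
      rw [← map_mul]
      have h3 : q * D * (q * D) = algebraMap E F c * D := by rw [h2]; ring
      rw [h3]
      apply e.injective
      rw [e.apply_symm_apply, hD]
      simp only [map_mul, map_add, map_pow]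
      have e1 : ∀ z : E, e (RatFunc.C z) = algebraMap E F z := fun z => e.commutes z
      rw [e1, e1, e1]
    · refine hcy ⟨p, ?_⟩
      apply (algebraMap F E').injective
      rw [h1, hq]
      simp [pow_two]
  · -- x in F
    have h2pq : algebraMap F E' (2 * p * q) ≠ 0 := by
      rw [Ne, map_eq_zero]
      rw [mul_assoc]
      exact mul_ne_zero two_ne_zero hpq0
    set r : F := (algebraMap E F c - (p ^ 2 + q ^ 2 * D)) / (2 * p * q) with hr
    have hxr : x = algebraMap F E' r := by
      rw [hr, map_div₀, map_sub]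
      rw [eq_div_iff h2pq, h1]
      ring
    refine hcy ⟨p + q * r, ?_⟩
    apply (algebraMap F E').injective
    rw [hv, hpq, hxr]
    simp only [map_mul, map_add]

/-- A nonsquare stays a nonsquare in the function field of a conic. -/
lemma not_isSquare_con {E E' : Type} [Field E] [Field E'] [CharZero E] [Algebra E E'] {c : E}
    (hc : ¬ IsSquare c) (α β : E) (x y : E') (hα : α ≠ 0) (hβ : β ≠ 0) (hy : Transcendental E y)
    (hxy : x ^ 2 = algebraMap E E' α * y ^ 2 + algebraMap E E' β) (htop : adjoin E {x, y} = ⊤) :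
    ¬ IsSquare (algebraMap E E' c) := by
  have h := not_isSquare_con_aux (E' := E') (ratEquiv y hy) hc α β x hα hβ (by
    rw [hxy]
    simp only [map_add, map_mul, map_pow]
    rw [← IsScalarTower.algebraMap_apply, ← IsScalarTower.algebraMap_apply]
    rw [ratEquiv_X']) (by
    have h1 : ((E⟮y⟯)⟮x⟯).restrictScalars E = ⊤ := by
      rw [eq_top_iff, ← htop, adjoin_le_iff]
      intro z hz
      rw [SetLike.mem_coe, IntermediateField.mem_restrictScalars]
      rcases hz with hz | hz
      · rw [hz]; exact mem_adjoin_simple_self _ _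
      · have h2 : z = algebraMap E⟮y⟯ E' (AdjoinSimple.gen E y) := hz
        rw [h2]
        exact IntermediateField.algebraMap_mem ((E⟮y⟯)⟮x⟯) (AdjoinSimple.gen E y)
    exact (IntermediateField.restrictScalars_eq_top_iff).1 h1)
  rwa [← IsScalarTower.algebraMap_apply] at h

/-- the dimension of a quadratic extension -/
lemma finrank_sqrt {E k : Type} [Field E] [Field k] [Algebra E k] {c : E} (hc : ¬ IsSquare c)
    (s : k) (hs : s ^ 2 = algebraMap E k c) : finrank E E⟮s⟯ = 2 := by
  have hirr : Irreducible (X ^ 2 - C c) :=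
    (X_pow_sub_C_irreducible_iff_of_prime Nat.prime_two).2 fun b hb =>
      hc ⟨b, by rw [← hb, pow_two]⟩
  have hm : (X ^ 2 - C c : E[X]).Monic := monic_X_pow_sub_C c (by norm_num)
  have hmin : X ^ 2 - C c = minpoly E s :=
    minpoly.eq_of_irreducible_of_monic hirr (by simp [hs]) hm
  have hint : IsIntegral E s := ⟨X ^ 2 - C c, hm, by simp [hs]⟩
  rw [adjoin.finrank hint, ← hmin, natDegree_X_pow_sub_C]

/-- A nonsquare stays a nonsquare in an extension of odd degree. -/
lemma not_isSquare_odd {E E' : Type} [Field E] [Field E'] [Algebra E E'] {c : E}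
    (hc : ¬ IsSquare c) [FiniteDimensional E E'] (hodd : Odd (finrank E E')) :
    ¬ IsSquare (algebraMap E E' c) := by
  rintro ⟨v, hv⟩
  have h := finrank_sqrt hc v (by rw [pow_two, ← hv])
  have h2 : 2 ∣ finrank E E' := by
    rw [← h]
    exact ⟨_, (finrank_mul_finrank E E⟮v⟯ E').symm⟩
  exact (Nat.not_even_iff_odd.2 hodd) (even_iff_two_dvd.2 h2)

/-- Generation in the tower. -/
lemma adjoin_top_aux {E E' k k' : Type} [Field E] [Field E'] [Field k] [Field k'] [Algebra E E']
    [Algebra E k] [Algebra E k'] [Algebra E' k'] [Algebra k k'] [IsScalarTower E k k']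
    [IsScalarTower E E' k'] (S : Set E') (hS : adjoin E S = ⊤) (s : k)
    (hs : adjoin E' {algebraMap k k' s} = ⊤) : adjoin k (algebraMap E' k' '' S) = ⊤ := by
  set T := adjoin k (algebraMap E' k' '' S) with hT
  have h1 : ∀ x : E', algebraMap E' k' x ∈ T := by
    intro x
    have h2 : adjoin E S ≤ (T.restrictScalars E).comap (IsScalarTower.toAlgHom E E' k') := by
      rw [adjoin_le_iff]
      intro z hz
      exact subset_adjoin k _ ⟨z, hz, rfl⟩
    rw [hS] at h2
    exact h2 (trivial : x ∈ (⊤ : IntermediateField E E'))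
  have h3 : adjoin E' {algebraMap k k' s} ≤ T.toSubfield.toIntermediateField h1 := by
    rw [adjoin_le_iff, Set.singleton_subset_iff]
    exact T.algebraMap_mem s
  rw [hs] at h3
  rw [eq_top_iff]
  intro z _
  exact h3 (trivial : z ∈ (⊤ : IntermediateField E' k'))

/-- The common part of the steps. -/
lemma GE_of {E E' : Type} [Field E] [Field E'] [Algebra E E'] (a c : E) (h : GE E a c)
    (hc : ¬ IsSquare (algebraMap E E' c))
    (step : ∀ (k k' : Type) [Field k] [Field k'] [Algebra E k] [Algebra k k'] [Algebra E' k']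
      [Algebra E k'] [IsScalarTower E k k'] [IsScalarTower E E' k'] (s : k),
      s ^ 2 = algebraMap E k c → adjoin E {s} = ⊤ → adjoin E' {algebraMap k k' s} = ⊤ →
      ∀ (σ : k ≃+* k) (σ' : k' ≃+* k'), (∀ x, σ' (algebraMap k k' x) = algebraMap k k' (σ x)) →
      Good k (algebraMap E k a) s σ →
      Good k' (algebraMap k k' (algebraMap E k a)) (algebraMap k k' s) σ') :
    GE E' (algebraMap E E' a) (algebraMap E E' c) := by
  refine ⟨hc, ?_⟩
  intro k' _ _ s' hs' htop' σ' hσ'
  letI : Algebra E k' := ((algebraMap E' k').comp (algebraMap E E')).toAlgebra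
  haveI : IsScalarTower E E' k' := IsScalarTower.of_algebraMap_eq' rfl
  let s : E⟮s'⟯ := AdjoinSimple.gen E s'
  have hs : s ^ 2 = algebraMap E E⟮s'⟯ c := by
    apply Subtype.ext
    show s' ^ 2 = algebraMap E k' c
    rw [hs']
    rfl
  have htop : adjoin E {s} = ⊤ := by
    have h1 : lift (adjoin E {s}) = lift (⊤ : IntermediateField E E⟮s'⟯) := by
      rw [lift_adjoin_simple, lift_top]
      rfl
    exact lift_injective _ h1
  let τ : k' ≃ₐ[E] k' := σ'.restrictScalars E
  have hτ : τ s' = -s' := hσ'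
  have hmap : (E⟮s'⟯).map τ.toAlgHom = E⟮s'⟯ := by
    rw [adjoin_map]
    apply le_antisymm
    · rw [adjoin_le_iff]
      rintro z ⟨w, hw, rfl⟩
      have hw' : w = s' := hw
      show τ w ∈ _
      rw [hw', hτ]
      exact neg_mem (mem_adjoin_simple_self _ _)
    · rw [adjoin_le_iff, Set.singleton_subset_iff]
      have h1 : τ s' ∈ adjoin E (τ.toAlgHom '' {s'}) := subset_adjoin _ _ ⟨s', rfl, rfl⟩
      have h2 := neg_mem h1
      rw [hτ, neg_neg] at h2
      exact h2
  let σ : E⟮s'⟯ ≃ₐ[E] E⟮s'⟯ := (intermediateFieldMap τ E⟮s'⟯).trans (equivOfEq hmap)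
  have hσc : ∀ x : E⟮s'⟯, (σ x : k') = σ' x := fun x => rfl
  have hσs : σ s = -s := by
    apply Subtype.ext
    rw [hσc]
    exact hσ'
  have hgood := h.2 E⟮s'⟯ s hs htop σ hσs
  exact step E⟮s'⟯ k' s hs htop htop' σ.toRingEquiv σ'.toRingEquiv (fun x => (hσc x).symm) hgood

end Pool.Agent.Helper49.W4
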