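import Pool.Agent.Helper49.W4.LgA

/-!
# Adjoining a generic zero: the two parametrizations
-/

set_option autoImplicit false

namespace Pool.Agent.Helper49.W4

open Polynomial

variable {A B : Type} [CommRing A] [CommRing B] {n d : ℕ}

/-- polynomials from coordinates -/
noncomputable def pol (w : Fin n × Fin d → A) : Fin n → A[X] :=
  fun i => ∑ b : Fin d, C (w (i, b)) * X ^ (b : ℕ)

/-- coordinates of polynomials -/
def crd (d : ℕ) (f : Fin n → A[X]) : Fin n × Fin d → A := fun s => (f s.1).coeff s.2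

lemma map_pol (f : A →+* B) (w : Fin n × Fin d → A) (i : Fin n) :
    (pol w i).map f = pol (fun s => f (w s)) i := by
  simp [pol, Polynomial.map_sum]

lemma pol_degree_lt (w : Fin n × Fin d → A) (i : Fin n) : (pol w i).degree < d := by
  unfold pol
  refine (Polynomial.degree_sum_le _ _).trans_lt ?_
  refine (Finset.sup_lt_iff (WithBot.bot_lt_coe d)).2 ?_
  intro b _
  refine (Polynomial.degree_C_mul_X_pow_le _ _).trans_lt ?_
  exact WithBot.coe_lt_coe.2 b.2

lemma pol_coeff (w : Fin n × Fin d → A) (i : Fin n) (b : Fin d) : (pol w i).coeff b = w (i, b) := by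
  simp only [pol, finsetSum_coeff, coeff_C_mul, coeff_X_pow]
  rw [Finset.sum_eq_single b]
  · simp
  · intro c _ hc
    rw [if_neg (fun h => hc (Fin.ext h.symm)), mul_zero]
  · intro h; exact absurd (Finset.mem_univ b) h

lemma crd_pol (w : Fin n × Fin d → A) : crd d (pol w) = w := by
  funext s; exact pol_coeff w s.1 s.2

lemma pol_crd (f : Fin n → A[X]) (hf : ∀ i, (f i).degree < d) : pol (crd d f) = f := by
  funext i
  ext k
  by_cases hk : k < d
  · exact pol_coeff (crd d f) i ⟨k, hk⟩
  · rw [coeff_eq_zero_of_degree_lt ((pol_degree_lt _ i).trans_le (by exact_mod_cast not_lt.1 hk)),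
      coeff_eq_zero_of_degree_lt ((hf i).trans_le (by exact_mod_cast not_lt.1 hk))]

/-- the reduced value of the parametrization -/
noncomputable def Tr (p : A[X]) (c y : Fin n → A[X]) (w : Fin n × Fin d → A) : Fin n → A[X] :=
  fun i => Tf c (pol w) y i %ₘ p

lemma map_Tr (f : A →+* B) (p : A[X]) (hp : p.Monic) (c y : Fin n → A[X]) (w : Fin n × Fin d → A)
    (i : Fin n) : (Tr p c y w i).map f =
      Tr (p.map f) (fun i => (c i).map f) (fun i => (y i).map f) (fun s => f (w s)) i := by
  unfold Tr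
  rw [Polynomial.map_modByMonic f hp]
  have h := map_Tf (Polynomial.mapRingHom f) c (pol w) y i
  simp only [Polynomial.coe_mapRingHom] at h
  rw [h]
  congr 2
  funext i
  exact map_pol f w i

/-- the generic value of the parametrization, in coordinates -/
noncomputable def Tg (d : ℕ) (p : A[X]) (c y : Fin n → A[X]) :
    Fin n × Fin d → MvPolynomial (Fin n × Fin d) A :=
  crd d (Tr (p.map MvPolynomial.C) (fun i => (c i).map MvPolynomial.C)
    (fun i => (y i).map MvPolynomial.C) (fun s => MvPolynomial.X s))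

lemma eval_Tg (p : A[X]) (hp : p.Monic) (c y : Fin n → A[X]) (w : Fin n × Fin d → A)
    (s : Fin n × Fin d) :
    MvPolynomial.eval w (Tg d p c y s) = crd d (Tr p c y w) s := by
  unfold Tg crd
  rw [← Polynomial.coeff_map, map_Tr _ _ (hp.map _)]
  simp only [Polynomial.map_map, MvPolynomial.eval_X]
  have : (MvPolynomial.eval w).comp (MvPolynomial.C : A →+* MvPolynomial (Fin n × Fin d) A) =
      RingHom.id A := by
    ext a; simp
  rw [this]
  simp

/-- the polynomial `P ∘ T` -/
noncomputable def PT {E : Type} [CommRing E] (ι : E →+* A) (p : A[X]) (c y : Fin n → A[X])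
    (P : MvPolynomial (Fin n × Fin d) E) : MvPolynomial (Fin n × Fin d) A :=
  MvPolynomial.eval₂ (MvPolynomial.C.comp ι) (Tg d p c y) P

lemma eval_PT {E : Type} [CommRing E] (ι : E →+* A) (p : A[X]) (hp : p.Monic) (c y : Fin n → A[X])
    (P : MvPolynomial (Fin n × Fin d) E) (w : Fin n × Fin d → A) :
    MvPolynomial.eval w (PT ι p c y P) = MvPolynomial.eval₂ ι (crd d (Tr p c y w)) P := by
  unfold PT
  rw [MvPolynomial.eval₂_comp_left]
  congr 1
  · ext a; simp
  · funext s; exact eval_Tg p hp c y w s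

/-- the polynomial `b_θ(y, T(t, y'))` -/
noncomputable def Dg (d : ℕ) (c y y' : Fin n → A[X]) (θ : A) : MvPolynomial (Fin n × Fin d) A :=
  bf (fun i => MvPolynomial.C ((c i).eval θ)) (fun i => MvPolynomial.C ((y i).eval θ))
    (Tf (fun i => MvPolynomial.C ((c i).eval θ))
      (fun i => (pol (fun s => (MvPolynomial.X s : MvPolynomial (Fin n × Fin d) A)) i).eval
        (MvPolynomial.C θ))
      (fun i => MvPolynomial.C ((y' i).eval θ)))

lemma eval_Dg (c y y' : Fin n → A[X]) (θ : A) (w : Fin n × Fin d → A) :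
    MvPolynomial.eval w (Dg d c y y' θ) =
      bf (fun i => (c i).eval θ) (fun i => (y i).eval θ)
        (Tf (fun i => (c i).eval θ) (fun i => (pol w i).eval θ) (fun i => (y' i).eval θ)) := by
  unfold Dg
  rw [map_bf]
  simp only [map_Tf, MvPolynomial.eval_C]
  have h : ∀ i, MvPolynomial.eval w ((pol (fun s => (MvPolynomial.X s :
      MvPolynomial (Fin n × Fin d) A)) i).eval (MvPolynomial.C θ)) = (pol w i).eval θ := by
    intro i
    have h : (pol w i) = (pol (fun s => (MvPolynomial.X s : MvPolynomial (Fin n × Fin d) A)) i).map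
        (MvPolynomial.eval w) := by
      rw [map_pol]; simp
    have h2 : θ = MvPolynomial.eval w (MvPolynomial.C θ : MvPolynomial (Fin n × Fin d) A) := by simp
    rw [h, Polynomial.eval_map]
    conv_rhs => rw [h2]
    rw [Polynomial.eval₂_at_apply]
  simp only [h]

section Omega

variable {L : Type} [Field L] [CharZero L] [IsAlgClosed L]

omit [CharZero L] [IsAlgClosed L] in
lemma eval_Tr {p : L[X]} (c y : Fin n → L[X]) (w : Fin n × Fin d → L) (θ : L)
    (hθ : p.eval θ = 0) (i : Fin n) :
    (Tr p c y w i).eval θ =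
      Tf (fun i => (c i).eval θ) (fun i => (pol w i).eval θ) (fun i => (y i).eval θ) i := by
  unfold Tr
  have h1 : (Tf c (pol w) y i %ₘ p).eval θ = (Tf c (pol w) y i).eval θ := by
    conv_rhs => rw [← Polynomial.modByMonic_add_div (Tf c (pol w) y i) p]
    rw [eval_add, eval_mul, hθ, zero_mul, add_zero]
  rw [h1]
  have := map_Tf (Polynomial.evalRingHom θ) c (pol w) y i
  simpa using this

omit [CharZero L] in
/-- For a separable polynomial, divisibility can be tested at the roots. -/
lemma dvd_of_roots {p : L[X]} (hsep : p.Separable) {g : L[X]}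
    (h : ∀ θ, p.eval θ = 0 → g.eval θ = 0) : p ∣ g := by
  have hp0 : p ≠ 0 := hsep.ne_zero
  by_cases hg : g = 0
  · rw [hg]; exact dvd_zero _
  have hs : p.Splits := IsAlgClosed.splits p
  rw [hs.dvd_iff_roots_le_roots hp0 hg]
  rw [Multiset.le_iff_subset (Polynomial.nodup_roots hsep)]
  intro θ hθ
  rw [Polynomial.mem_roots hp0] at hθ
  rw [Polynomial.mem_roots hg]
  exact h θ hθ

/-- The comparison of the two parametrizations. -/
lemma PT_ne {E : Type} [CommRing E] (ι : E →+* L) {p : L[X]} (hp : p.Monic) (hsep : p.Separable)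
    (hd : p.natDegree = d) (hn : 3 ≤ n) (c y y' : Fin n → L[X])
    (hc : ∀ θ, p.eval θ = 0 → ∀ i, (c i).eval θ ≠ 0)
    (hy : ∀ θ, p.eval θ = 0 → (fun i => (y i).eval θ) ≠ 0)
    (hy' : ∀ θ, p.eval θ = 0 → (fun i => (y' i).eval θ) ≠ 0)
    (hqy : p ∣ qf c y) (hqy' : p ∣ qf c y') (P : MvPolynomial (Fin n × Fin d) E)
    (hP : PT ι p c y' P ≠ 0) : PT ι p c y P ≠ 0 := by
  classical
  have hp0 : p ≠ 0 := hp.ne_zero
  -- the polynomials D_θ are nonzero
  have hD : ∀ θ ∈ p.roots.toFinset, Dg d c y y' θ ≠ 0 := by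
    intro θ hθ h
    have hθ' : p.eval θ = 0 := by
      rw [Multiset.mem_toFinset, Polynomial.mem_roots hp0] at hθ; exact hθ
    obtain ⟨v, hv⟩ := exists_bf_Tf_ne hn _ _ _ (hc θ hθ') (hy θ hθ') (hy' θ hθ')
    have hdpos : 0 < d := by
      rw [← hd]
      by_contra h0
      have h0' : p.natDegree = 0 := by omega
      have h1' : p = 1 := hp.natDegree_eq_zero.1 h0'
      rw [h1'] at hθ'
      simp at hθ'
    have h2 := congrArg (MvPolynomial.eval (crd d (fun i => C (v i)))) h
    rw [eval_Dg, map_zero] at h2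
    have h3 : pol (crd d (fun i => C (v i))) = fun i => C (v i) := by
      refine pol_crd _ fun i => ?_
      exact (degree_C_le).trans_lt (by exact_mod_cast hdpos)
    rw [h3] at h2
    simp only [eval_C] at h2
    exact hv h2
  -- a good point
  have hprod : PT ι p c y' P * ∏ θ ∈ p.roots.toFinset, Dg d c y y' θ ≠ 0 :=
    mul_ne_zero hP (Finset.prod_ne_zero_iff.2 hD)
  obtain ⟨t', ht'⟩ : ∃ t', MvPolynomial.eval t'
      (PT ι p c y' P * ∏ θ ∈ p.roots.toFinset, Dg d c y y' θ) ≠ 0 := by
    by_contra hcon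
    push Not at hcon
    exact hprod (MvPolynomial.funext fun t => by rw [hcon t, map_zero])
  rw [map_mul, map_prod] at ht'
  have ht1 := left_ne_zero_of_mul ht'
  have ht2 := Finset.prod_ne_zero_iff.1 (right_ne_zero_of_mul ht')
  set z : Fin n → L[X] := Tr p c y' t' with hz
  have hpd : p.degree = (d : WithBot ℕ) := by rw [← hd]; exact Polynomial.degree_eq_natDegree hp0
  have hzdeg : ∀ i, (z i).degree < (d : WithBot ℕ) := by
    intro i
    exact hpd ▸ Polynomial.degree_modByMonic_lt _ hp
  -- values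
  have hzb : ∀ θ, p.eval θ = 0 → bf (fun i => (c i).eval θ) (fun i => (y i).eval θ)
      (fun i => (z i).eval θ) ≠ 0 := by
    intro θ hθ h
    refine ht2 θ (by rw [Multiset.mem_toFinset, Polynomial.mem_roots hp0]; exact hθ) ?_
    rw [eval_Dg, ← h]
    congr 1
    funext i
    rw [hz, eval_Tr c y' t' θ hθ i]
  have hqyθ : ∀ θ, p.eval θ = 0 → qf (fun i => (c i).eval θ) (fun i => (y i).eval θ) = 0 := by
    intro θ hθ
    have h := map_qf (Polynomial.evalRingHom θ) c y
    simp only [coe_evalRingHom] at h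
    rw [← h]
    obtain ⟨r, hr⟩ := hqy
    rw [hr, eval_mul, hθ, zero_mul]
  have hqyθ' : ∀ θ, p.eval θ = 0 → qf (fun i => (c i).eval θ) (fun i => (y' i).eval θ) = 0 := by
    intro θ hθ
    have h := map_qf (Polynomial.evalRingHom θ) c y'
    simp only [coe_evalRingHom] at h
    rw [← h]
    obtain ⟨r, hr⟩ := hqy'
    rw [hr, eval_mul, hθ, zero_mul]
  have hqz : ∀ θ, p.eval θ = 0 → qf (fun i => (c i).eval θ) (fun i => (z i).eval θ) = 0 := by
    intro θ hθ
    have h : (fun i => (z i).eval θ) = Tf (fun i => (c i).eval θ) (fun i => (pol t' i).eval θ)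
        (fun i => (y' i).eval θ) := by
      funext i
      rw [hz, eval_Tr c y' t' θ hθ i]
    rw [h, qf_Tf, hqyθ' θ hθ, mul_zero]
  -- the multiplier
  have hμ : ∀ θ, ∃ μ : L, p.eval θ = 0 → -2 * μ ^ 2 *
      bf (fun i => (c i).eval θ) (fun i => (y i).eval θ) (fun i => (z i).eval θ) = 1 := by
    intro θ
    by_cases hθ : p.eval θ = 0
    · set β := bf (fun i => (c i).eval θ) (fun i => (y i).eval θ) (fun i => (z i).eval θ)
      obtain ⟨μ, hμ⟩ := IsAlgClosed.exists_pow_nat_eq (-1 / (2 * β)) (n := 2) (by norm_num)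
      refine ⟨μ, fun _ => ?_⟩
      rw [hμ]
      have hβ : β ≠ 0 := hzb θ hθ
      field_simp
    · exact ⟨0, fun h => absurd h hθ⟩
  choose μ hμ using hμ
  set m : L[X] := Lagrange.interpolate p.roots.toFinset id μ with hm
  have hmev : ∀ θ, p.eval θ = 0 → m.eval θ = μ θ := by
    intro θ hθ
    have := Lagrange.eval_interpolate_at_node (v := id) μ (s := p.roots.toFinset) (i := θ)
      (Function.injective_id.injOn) (by
        rw [Multiset.mem_toFinset, Polynomial.mem_roots hp0]; exact hθ)
    rw [hm]; exact this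
  set u : Fin n → L[X] := fun i => (1 * y i - m * z i) %ₘ p with hu
  have hudeg : ∀ i, (u i).degree < (d : WithBot ℕ) := by
    intro i
    exact hpd ▸ Polynomial.degree_modByMonic_lt _ hp
  have huev : ∀ θ, p.eval θ = 0 → ∀ i, (u i).eval θ = 1 * (y i).eval θ - μ θ * (z i).eval θ := by
    intro θ hθ i
    have h1 : (u i).eval θ = (1 * y i - m * z i).eval θ := by
      conv_rhs => rw [← Polynomial.modByMonic_add_div (1 * y i - m * z i) p]
      rw [eval_add, eval_mul, hθ, zero_mul, add_zero]
    rw [h1]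
    simp [hmev θ hθ]
  have hfin : Tr p c y (crd d u) = z := by
    funext i
    have hdvd : p ∣ Tr p c y (crd d u) i - z i := by
      refine dvd_of_roots hsep fun θ hθ => ?_
      rw [eval_sub, eval_Tr c y (crd d u) θ hθ i, pol_crd u hudeg]
      rw [show (fun i => (u i).eval θ) = fun i => 1 * (y i).eval θ - μ θ * (z i).eval θ from
        funext fun i => huev θ hθ i]
      rw [Tf_inv _ _ _ _ (hqyθ θ hθ) (hqz θ hθ) (hμ θ hθ), sub_self]
    have hdeg : (Tr p c y (crd d u) i - z i).degree < p.degree := by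
      refine (Polynomial.degree_sub_le _ _).trans_lt (max_lt ?_ ?_)
      · exact Polynomial.degree_modByMonic_lt _ hp
      · rw [hpd]; exact hzdeg i
    exact sub_eq_zero.1 (Polynomial.eq_zero_of_dvd_of_degree_lt hdvd hdeg)
  intro h
  have h2 := congrArg (MvPolynomial.eval (crd d u)) h
  rw [eval_PT ι p hp, map_zero, hfin] at h2
  rw [eval_PT ι p hp] at ht1
  exact ht1 h2

end Omega

end Pool.Agent.Helper49.W4
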