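import Pool.Agent.Helper40.W4.Spec
import Pool.Agent.Helper49.W4.LgB

/-!
# Adjoining a generic zero
-/

set_option autoImplicit false

namespace Pool.Agent.Helper49.W4

open Polynomial Pool.Agent.Helper40.W4

/-- two fields over `E` embed in an algebraically closed field -/
lemma exists_common (E M₁ M₂ : Type) [Field E] [Field M₁] [Field M₂] (i₁ : E →+* M₁)
    (i₂ : E →+* M₂) : ∃ (L : Type) (_ : Field L) (_ : IsAlgClosed L) (φ₁ : M₁ →+* L)
      (φ₂ : M₂ →+* L), φ₁.comp i₁ = φ₂.comp i₂ := by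
  letI := i₁.toAlgebra
  letI := i₂.toAlgebra
  let R := TensorProduct E M₁ M₂
  haveI : Nontrivial R := inferInstance
  obtain ⟨m, hm⟩ := Ideal.exists_maximal R
  letI : Field (R ⧸ m) := Ideal.Quotient.field m
  refine ⟨AlgebraicClosure (R ⧸ m), inferInstance, inferInstance,
    ((algebraMap (R ⧸ m) (AlgebraicClosure (R ⧸ m))).comp (Ideal.Quotient.mk m)).comp
      (Algebra.TensorProduct.includeLeftRingHom),
    ((algebraMap (R ⧸ m) (AlgebraicClosure (R ⧸ m))).comp (Ideal.Quotient.mk m)).comp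
      (Algebra.TensorProduct.includeRight : M₂ →ₐ[E] R).toRingHom, ?_⟩
  ext e
  have h1 : i₁ e = e • (1 : M₁) := by rw [Algebra.smul_def, mul_one]; rfl
  have h2 : i₂ e = e • (1 : M₂) := by rw [Algebra.smul_def, mul_one]; rfl
  have h3 : (TensorProduct.tmul E (i₁ e) (1 : M₂) : R) = TensorProduct.tmul E (1 : M₁) (i₂ e) := by
    rw [h1, h2, TensorProduct.smul_tmul]
  exact congrArg (fun x => algebraMap (R ⧸ m) (AlgebraicClosure (R ⧸ m)) (Ideal.Quotient.mk m x)) h3

/-- The data over the algebraically closed field. -/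
structure Zer {L : Type} [Field L] {n : ℕ} (p : L[X]) (c y : Fin n → L[X]) : Prop where
  dvd : p ∣ qf c y
  ne : ∀ θ, p.eval θ = 0 → (fun i => (y i).eval θ) ≠ 0

lemma zer_of_locIso {M L : Type} [Field M] [Field L] (φ : M →+* L) {n : ℕ} (p : M[X])
    (c y : Fin n → M[X]) (h1 : p ∣ ∑ i, c i * y i ^ 2)
    (h2 : Ideal.span (insert p (Set.range y)) = ⊤) :
    Zer (p.map φ) (fun i => (c i).map φ) (fun i => (y i).map φ) := by
  constructor
  · have h := Polynomial.map_dvd φ h1
    have h3 := map_qf (Polynomial.mapRingHom φ) c y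
    simp only [coe_mapRingHom, qf] at h3
    rw [h3] at h
    exact h
  · intro θ hθ h
    have h3 : Ideal.span (insert p (Set.range y)) ≤
        RingHom.ker ((Polynomial.evalRingHom θ).comp (Polynomial.mapRingHom φ)) := by
      refine Ideal.span_le.2 ?_
      rintro g (rfl | ⟨i, rfl⟩)
      · simpa [RingHom.mem_ker] using hθ
      · simpa [RingHom.mem_ker] using congrFun h i
    rw [h2, top_le_iff] at h3
    have h4 : (1 : M[X]) ∈ RingHom.ker ((Polynomial.evalRingHom θ).comp
      (Polynomial.mapRingHom φ)) := by rw [h3]; trivial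
    simp [RingHom.mem_ker] at h4

lemma countable_mvPolynomial (σ E : Type) [Field E] [Finite σ] [Countable E] :
    Countable (MvPolynomial σ E) := by
  rw [← Cardinal.mk_le_aleph0_iff]
  refine (MvPolynomial.cardinalMk_le_max_lift (σ := σ) (R := E)).trans ?_
  simp

/-- The generic point over `M`. -/
lemma exists_generic {E M L : Type} [Field E] [Field M] [Field L] [CharZero L] [IsAlgClosed L]
    [Countable E] (hM : ¬ Countable M) (ι : E →+* M) (φ : M →+* L) (p : E[X]) (hp : p.Monic)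
    {n : ℕ} (hn : 3 ≤ n) (c : Fin n → E[X])
    (hc : ∀ θ, (p.map (φ.comp ι)).eval θ = 0 → ∀ i, ((c i).map (φ.comp ι)).eval θ ≠ 0)
    (y : Fin n → M[X]) (h1 : p.map ι ∣ ∑ i, (c i).map ι * y i ^ 2)
    (h2 : Ideal.span (insert (p.map ι) (Set.range y)) = ⊤) :
    ∃ w : Fin n × Fin p.natDegree → M,
      (p.map ι ∣ ∑ i, (c i).map ι * (pol w i) ^ 2) ∧
      (∀ θ : L, (p.map (φ.comp ι)).eval θ = 0 → (fun i => ((pol w i).map φ).eval θ) ≠ 0) ∧
      ∀ P : MvPolynomial (Fin n × Fin p.natDegree) E, MvPolynomial.eval₂ ι w P = 0 ↔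
        PT (φ.comp ι) (p.map (φ.comp ι)) (fun i => (c i).map (φ.comp ι)) (fun i => (y i).map φ) P
          = 0 := by
  classical
  haveI := countable_mvPolynomial (Fin n × Fin p.natDegree) E
  set d := p.natDegree
  set pL := p.map (φ.comp ι) with hpL
  set cL : Fin n → L[X] := fun i => (c i).map (φ.comp ι) with hcL
  set yL : Fin n → L[X] := fun i => (y i).map φ with hyL
  have hz : Zer pL cL yL := by
    have := zer_of_locIso φ (p.map ι) (fun i => (c i).map ι) y h1 h2
    simpa only [Polynomial.map_map] using this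
  have hpm : pL.Monic := hp.map _
  have hp0 : pL ≠ 0 := hpm.ne_zero
  set S : Set (MvPolynomial (Fin n × Fin d) L) :=
    ({Q | Q ≠ 0} ∩ Set.range (PT (d := d) (φ.comp ι) pL cL yL)) ∪
      ((fun θ => Dg d cL yL yL θ) '' (pL.roots.toFinset : Set L)) with hS
  have hScount : S.Countable := by
    refine Set.Countable.union ?_ ?_
    · exact (Set.countable_range _).mono Set.inter_subset_right
    · exact (Finset.countable_toSet _).image _
  have hS0 : ∀ P ∈ S, P ≠ 0 := by
    rintro P (⟨hP, _⟩ | ⟨θ, hθ, rfl⟩)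
    · exact hP
    · intro h
      have hθ' : pL.eval θ = 0 := by
        rw [Finset.mem_coe, Multiset.mem_toFinset, Polynomial.mem_roots hp0] at hθ; exact hθ
      obtain ⟨v, hv⟩ := exists_bf_Tf_ne hn _ _ _ (hc θ hθ') (hz.ne θ hθ') (hz.ne θ hθ')
      have hdpos : 0 < d := by
        by_contra h0
        have h0' : pL.natDegree = 0 := by
          rw [hpL, Polynomial.natDegree_map]; omega
        have h1' : pL = 1 := hpm.natDegree_eq_zero.1 h0'
        rw [h1'] at hθ'
        simp at hθ'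
      have h2 := congrArg (MvPolynomial.eval (crd d (fun i => C (v i)))) h
      rw [eval_Dg, map_zero] at h2
      have h3 : pol (crd d (fun i => C (v i))) = fun i => C (v i) := by
        refine pol_crd _ fun i => ?_
        exact (degree_C_le).trans_lt (by exact_mod_cast hdpos)
      rw [h3] at h2
      simp only [eval_C] at h2
      exact hv h2
  obtain ⟨t, ht⟩ := exists_avoid φ hM S hScount hS0
  set w : Fin n × Fin d → M := crd d (Tr (p.map ι) (fun i => (c i).map ι) y t) with hw
  have hpoldeg : ∀ i, (Tr (p.map ι) (fun i => (c i).map ι) y t i).degree < (d : WithBot ℕ) := by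
    intro i
    have h := Polynomial.degree_modByMonic_lt
      (Tf (fun i => (c i).map ι) (pol t) y i) (hp.map ι)
    rw [Polynomial.degree_map, Polynomial.degree_eq_natDegree hp.ne_zero] at h
    exact h
  have hpw : pol w = Tr (p.map ι) (fun i => (c i).map ι) y t := pol_crd _ hpoldeg
  have hpwL : ∀ i, (pol w i).map φ = Tr pL cL yL (fun s => φ (t s)) i := by
    intro i
    rw [hpw, map_Tr φ _ (hp.map ι)]
    simp only [Polynomial.map_map]
    rfl
  refine ⟨w, ?_, ?_, ?_⟩
  · -- zero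
    have hq : p.map ι ∣ qf (fun i => (c i).map ι) (Tf (fun i => (c i).map ι) (pol t) y) := by
      rw [qf_Tf]
      exact Dvd.dvd.mul_left h1 _
    have hdiff : p.map ι ∣ qf (fun i => (c i).map ι) (pol w) -
        qf (fun i => (c i).map ι) (Tf (fun i => (c i).map ι) (pol t) y) := by
      rw [qf, qf, ← Finset.sum_sub_distrib]
      refine Finset.dvd_sum fun i _ => ?_
      have h3 : p.map ι ∣ pol w i - Tf (fun i => (c i).map ι) (pol t) y i := by
        rw [hpw]
        unfold Tr
        have := Polynomial.modByMonic_add_div (Tf (fun i => (c i).map ι) (pol t) y i) (p.map ι)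
        refine ⟨-(Tf (fun i => (c i).map ι) (pol t) y i /ₘ p.map ι), ?_⟩
        linear_combination this
      obtain ⟨r, hr⟩ := h3
      refine ⟨(c i).map ι * (pol w i + Tf (fun i => (c i).map ι) (pol t) y i) * r, ?_⟩
      linear_combination ((c i).map ι * (pol w i + Tf (fun i => (c i).map ι) (pol t) y i)) * hr
    have := dvd_add hdiff hq
    rwa [sub_add_cancel] at this
  · -- nonvanishing
    intro θ hθ h
    have hD := ht (Dg d cL yL yL θ) (Or.inr ⟨θ, by
      rw [Finset.mem_coe, Multiset.mem_toFinset, Polynomial.mem_roots hp0]; exact hθ, rfl⟩)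
    refine hD ?_
    rw [eval_Dg]
    have h4 : Tf (fun i => (cL i).eval θ) (fun i => (pol (fun s => φ (t s)) i).eval θ)
        (fun i => (yL i).eval θ) = 0 := by
      funext i
      rw [← eval_Tr cL yL (fun s => φ (t s)) θ hθ i, ← hpwL]
      exact congrFun h i
    rw [h4]
    simp [bf]
  · -- kernel
    intro P
    have h5 : φ (MvPolynomial.eval₂ ι w P) =
        MvPolynomial.eval (fun s => φ (t s)) (PT (φ.comp ι) pL cL yL P) := by
      rw [eval_PT (φ.comp ι) pL hpm, MvPolynomial.eval₂_comp_left]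
      congr 1
      funext s
      rw [Function.comp_apply, hw]
      simp only [crd]
      rw [← Polynomial.coeff_map, map_Tr φ _ (hp.map ι)]
      simp only [Polynomial.map_map]
      rfl
    constructor
    · intro h
      by_contra hne
      refine ht _ (Or.inl ⟨hne, ⟨P, rfl⟩⟩) ?_
      rw [← h5, h, map_zero]
    · intro h
      rw [h, map_zero] at h5
      exact (map_eq_zero φ).1 h5

theorem lgstep_thm : S_LGSTEP := by
  classical
  intro M₁ M₂ _ _ _ _ hM₁ hM₂ E _ hE i₁ i₂ p hp hirr n hn c hc hl₁ hl₂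
  obtain ⟨L, _, _, φ₁, φ₂, hφ⟩ := exists_common E M₁ M₂ i₁ i₂
  haveI : CharZero L := charZero_of_injective_ringHom φ₁.injective
  haveI : CharZero E := by
    refine ⟨fun a b h => ?_⟩
    have h2 := congrArg i₁ h
    simpa using h2
  obtain ⟨y₁, hy₁, hs₁⟩ := hl₁
  obtain ⟨y₂, hy₂, hs₂⟩ := hl₂
  have hsep : p.Separable := hirr.separable
  have hcop : ∀ i, IsCoprime p (c i) := fun i => (hirr.coprime_iff_not_dvd).2 (hc i)
  have hcθ : ∀ θ, (p.map (φ₁.comp i₁)).eval θ = 0 →
      ∀ i, ((c i).map (φ₁.comp i₁)).eval θ ≠ 0 := by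
    intro θ hθ i h
    obtain ⟨u, v, huv⟩ := hcop i
    have := congrArg (fun g => (g.map (φ₁.comp i₁)).eval θ) huv
    simp [Polynomial.map_add, Polynomial.map_mul, hθ, h] at this
  have hcθ' : ∀ θ, (p.map (φ₂.comp i₂)).eval θ = 0 →
      ∀ i, ((c i).map (φ₂.comp i₂)).eval θ ≠ 0 := by
    rw [← hφ]; exact hcθ
  obtain ⟨w₁, hw₁, hn₁, hk₁⟩ := exists_generic hM₁ i₁ φ₁ p hp hn c hcθ y₁ hy₁ hs₁
  obtain ⟨w₂, hw₂, hn₂, hk₂⟩ := exists_generic hM₂ i₂ φ₂ p hp hn c hcθ' y₂ hy₂ hs₂
  haveI := countable_mvPolynomial (Fin n × Fin p.natDegree) E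
  have hz₁ : Zer (p.map (φ₁.comp i₁)) (fun i => (c i).map (φ₁.comp i₁))
      (fun i => (y₁ i).map φ₁) := by
    have := zer_of_locIso φ₁ (p.map i₁) (fun i => (c i).map i₁) y₁ hy₁ hs₁
    simpa only [Polynomial.map_map] using this
  have hz₂ : Zer (p.map (φ₁.comp i₁)) (fun i => (c i).map (φ₁.comp i₁))
      (fun i => (y₂ i).map φ₂) := by
    have := zer_of_locIso φ₂ (p.map i₂) (fun i => (c i).map i₂) y₂ hy₂ hs₂
    rw [hφ]
    simpa only [Polynomial.map_map] using this
  rw [← hφ] at hk₂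
  have hdL : (p.map (φ₁.comp i₁)).natDegree = p.natDegree := Polynomial.natDegree_map _
  have hker : ∀ P : MvPolynomial (Fin n × Fin p.natDegree) E, MvPolynomial.eval₂ i₁ w₁ P = 0 ↔
      MvPolynomial.eval₂ i₂ w₂ P = 0 := by
    intro P
    rw [hk₁, hk₂]
    constructor
    · intro h
      by_contra h'
      exact PT_ne (φ₁.comp i₁) (hp.map _) hsep.map hdL hn _ _ _ hcθ hz₁.ne hz₂.ne hz₁.dvd
        hz₂.dvd P h' h
    · intro h
      by_contra h'
      exact PT_ne (φ₁.comp i₁) (hp.map _) hsep.map hdL hn _ _ _ hcθ hz₂.ne hz₁.ne hz₂.dvd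
        hz₁.dvd P h' h
  -- the field E'
  set f₁ : MvPolynomial (Fin n × Fin p.natDegree) E →+* M₁ := MvPolynomial.eval₂Hom i₁ w₁ with hf₁
  set f₂ : MvPolynomial (Fin n × Fin p.natDegree) E →+* M₂ := MvPolynomial.eval₂Hom i₂ w₂ with hf₂
  set P0 : Ideal (MvPolynomial (Fin n × Fin p.natDegree) E) := RingHom.ker f₁ with hP0
  haveI : P0.IsPrime := RingHom.ker_isPrime f₁
  have hkk : ∀ a, a ∈ P0 → f₂ a = 0 := fun a ha => (hker a).1 ha
  let D := MvPolynomial (Fin n × Fin p.natDegree) E ⧸ P0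
  let g₁ : D →+* M₁ := Ideal.Quotient.lift P0 f₁ (fun a ha => ha)
  let g₂ : D →+* M₂ := Ideal.Quotient.lift P0 f₂ hkk
  have hg₁ : Function.Injective g₁ := by
    rw [injective_iff_map_eq_zero]
    intro x hx
    obtain ⟨a, rfl⟩ := Ideal.Quotient.mk_surjective x
    exact Ideal.Quotient.eq_zero_iff_mem.2 hx
  have hg₂ : Function.Injective g₂ := by
    rw [injective_iff_map_eq_zero]
    intro x hx
    obtain ⟨a, rfl⟩ := Ideal.Quotient.mk_surjective x
    exact Ideal.Quotient.eq_zero_iff_mem.2 ((hker a).2 hx)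
  let E' := FractionRing D
  let j₁ : E' →+* M₁ := IsFractionRing.lift (K := E') hg₁
  let j₂ : E' →+* M₂ := IsFractionRing.lift (K := E') hg₂
  let i : E →+* E' := (algebraMap D E').comp ((Ideal.Quotient.mk P0).comp MvPolynomial.C)
  have hj₁ : ∀ a : MvPolynomial (Fin n × Fin p.natDegree) E, j₁ (algebraMap D E' (Ideal.Quotient.mk P0 a)) = f₁ a := by
    intro a
    rw [show j₁ (algebraMap D E' (Ideal.Quotient.mk P0 a)) = g₁ (Ideal.Quotient.mk P0 a) from
      IsFractionRing.lift_algebraMap hg₁ _]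
    rfl
  have hj₂ : ∀ a : MvPolynomial (Fin n × Fin p.natDegree) E, j₂ (algebraMap D E' (Ideal.Quotient.mk P0 a)) = f₂ a := by
    intro a
    rw [show j₂ (algebraMap D E' (Ideal.Quotient.mk P0 a)) = g₂ (Ideal.Quotient.mk P0 a) from
      IsFractionRing.lift_algebraMap hg₂ _]
    rfl
  have hji₁ : j₁.comp i = i₁ := by
    ext e
    show j₁ (algebraMap D E' (Ideal.Quotient.mk P0 (MvPolynomial.C e))) = _
    rw [hj₁]; simp [hf₁]
  have hji₂ : j₂.comp i = i₂ := by
    ext e
    show j₂ (algebraMap D E' (Ideal.Quotient.mk P0 (MvPolynomial.C e))) = _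
    rw [hj₂]; simp [hf₂]
  have hcount : Countable E' := by
    haveI : Countable D := Ideal.Quotient.mk_surjective.countable
    have hsurj : Function.Surjective (fun x : D × (nonZeroDivisors D) =>
        IsLocalization.mk' E' x.1 x.2) := by
      intro z
      obtain ⟨a, b, h⟩ := IsLocalization.exists_mk'_eq (nonZeroDivisors D) z
      exact ⟨(a, b), h⟩
    exact hsurj.countable
  let wE : Fin n × Fin p.natDegree → E' := fun s => algebraMap D E' (Ideal.Quotient.mk P0 (MvPolynomial.X s))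
  have hw : (fun s => j₁ (wE s)) = w₁ := by
    funext s
    show j₁ (algebraMap D E' (Ideal.Quotient.mk P0 (MvPolynomial.X s))) = _
    rw [hj₁]; simp [hf₁]
  have hpolmap : ∀ l, (pol wE l).map j₁ = pol w₁ l := by
    intro l
    rw [map_pol, hw]
  have hdvd : p.map i ∣ ∑ l, (c l).map i * (pol wE l) ^ 2 := by
    rw [← Polynomial.map_dvd_map j₁ j₁.injective (hp.map i)]
    rw [Polynomial.map_map, hji₁, Polynomial.map_sum]
    simp only [Polynomial.map_mul, Polynomial.map_pow, Polynomial.map_map, hji₁, hpolmap]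
    exact hw₁
  refine ⟨E', inferInstance, j₁, j₂, i, hcount, hji₁, hji₂, pol wE, hdvd, ?_⟩
  by_contra htop
  obtain ⟨g, hg⟩ := (IsPrincipalIdealRing.principal
    (Ideal.span (insert (p.map i) (Set.range (pol wE))))).principal
  have hgi : Ideal.span (insert (p.map i) (Set.range (pol wE))) = Ideal.span {g} := hg
  have hmem : ∀ x ∈ insert (p.map i) (Set.range (pol wE)), g ∣ x := by
    intro x hx
    rw [← Ideal.mem_span_singleton, ← hgi]
    exact Ideal.subset_span hx
  have hgp : g ∣ p.map i := hmem _ (Set.mem_insert _ _)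
  have hgu : ¬ IsUnit g := by
    intro hu
    refine htop ?_
    rw [hgi]
    exact Ideal.span_singleton_eq_top.2 hu
  have hg0 : g ≠ 0 := by
    rintro rfl
    exact (hp.map i).ne_zero (zero_dvd_iff.1 hgp)
  set gL : L[X] := g.map (φ₁.comp j₁) with hgL
  have hgLdeg : gL.degree ≠ 0 := by
    rw [hgL, Polynomial.degree_map]
    intro h
    exact hgu (Polynomial.isUnit_iff_degree_eq_zero.2 h)
  obtain ⟨θ, hθ⟩ := IsAlgClosed.exists_root gL hgLdeg
  have hroot : ∀ x : E'[X], g ∣ x → (x.map (φ₁.comp j₁)).eval θ = 0 := by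
    rintro x ⟨r, rfl⟩
    rw [Polynomial.map_mul, eval_mul]
    rw [show (g.map (φ₁.comp j₁)).eval θ = 0 from hθ, zero_mul]
  have hpθ : (p.map (φ₁.comp i₁)).eval θ = 0 := by
    have h := hroot _ hgp
    rw [Polynomial.map_map] at h
    rw [← h]
    congr 2
    rw [RingHom.comp_assoc, hji₁]
  refine hn₁ θ hpθ (funext fun l => ?_)
  have h := hroot _ (hmem _ (Set.mem_insert_of_mem _ ⟨l, rfl⟩))
  rw [← Polynomial.map_map, hpolmap] at h
  exact h

end Pool.Agent.Helper49.W4
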