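import Pool.Agent.Helper40.W4.Defs

/-!
# Adjoining a generic zero: preliminaries
-/

set_option autoImplicit false

namespace Pool.Agent.Helper49.W4

open Polynomial

/-! ### Avoiding countably many hypersurfaces -/

lemma exists_avoid_fin {M Ω : Type} [Field M] [Field Ω] (φ : M →+* Ω) (hM : ¬ Countable M) (N : ℕ) :
    ∀ (S : Set (MvPolynomial (Fin N) Ω)), S.Countable → (∀ P ∈ S, P ≠ 0) →
    ∃ t : Fin N → M, ∀ P ∈ S, MvPolynomial.eval (fun i => φ (t i)) P ≠ 0 := by
  induction N with
  | zero =>
    intro S _ h0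
    refine ⟨Fin.elim0, fun P hP h => h0 P hP ?_⟩
    rw [MvPolynomial.eq_C_of_isEmpty P] at h ⊢
    rw [MvPolynomial.eval_C] at h
    rw [h, map_zero]
  | succ N ih =>
    intro S hS h0
    set S' : Set (MvPolynomial (Fin N) Ω) :=
      (fun P => (MvPolynomial.finSuccEquiv Ω N P).leadingCoeff) '' S with hS'
    obtain ⟨t', ht'⟩ := ih S' (hS.image _) (by
      rintro Q ⟨P, hP, rfl⟩
      simp only [ne_eq, leadingCoeff_eq_zero, EmbeddingLike.map_eq_zero_iff]
      exact h0 P hP)
    have hcount : (⋃ P ∈ S, {x : M | (Polynomial.map (MvPolynomial.eval (fun i => φ (t' i)))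
        (MvPolynomial.finSuccEquiv Ω N P)).eval (φ x) = 0}).Countable := by
      refine hS.biUnion fun P hP => ?_
      have hne : Polynomial.map (MvPolynomial.eval (fun i => φ (t' i)))
          (MvPolynomial.finSuccEquiv Ω N P) ≠ 0 := by
        intro h
        have h1 := congrArg (fun q => q.coeff (MvPolynomial.finSuccEquiv Ω N P).natDegree) h
        simp only [coeff_map, coeff_zero] at h1
        exact ht' _ ⟨P, hP, rfl⟩ h1
      have hfin : {x : Ω | (Polynomial.map (MvPolynomial.eval (fun i => φ (t' i)))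
          (MvPolynomial.finSuccEquiv Ω N P)).eval x = 0}.Finite := by
        refine (Polynomial.finite_setOfPred_isRoot hne).subset ?_
        intro x hx; exact hx
      exact (hfin.preimage (φ.injective.injOn)).countable
    have : ∃ x : M, x ∉ (⋃ P ∈ S, {x : M | (Polynomial.map (MvPolynomial.eval (fun i => φ (t' i)))
        (MvPolynomial.finSuccEquiv Ω N P)).eval (φ x) = 0}) := by
      by_contra hcon
      push Not at hcon
      refine hM (Set.countable_univ_iff.1 (hcount.mono fun x _ => hcon x))
    obtain ⟨x, hx⟩ := this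
    refine ⟨Fin.cons x t', fun P hP h => hx ?_⟩
    simp only [Set.mem_iUnion, Set.mem_ofPred_eq, exists_prop]
    refine ⟨P, hP, ?_⟩
    have hfun : (fun i => φ ((Fin.cons x t' : Fin (N + 1) → M) i)) =
        Fin.cons (φ x) (fun i => φ (t' i)) := by
      funext i
      refine Fin.cases ?_ (fun j => ?_) i <;> simp
    rw [hfun, MvPolynomial.eval_eq_eval_mv_eval'] at h
    exact h

lemma exists_avoid {M Ω : Type} [Field M] [Field Ω] (φ : M →+* Ω) (hM : ¬ Countable M)
    {σ : Type} [Fintype σ] (S : Set (MvPolynomial σ Ω)) (hS : S.Countable) (h0 : ∀ P ∈ S, P ≠ 0) :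
    ∃ t : σ → M, ∀ P ∈ S, MvPolynomial.eval (fun i => φ (t i)) P ≠ 0 := by
  classical
  set e := Fintype.equivFin σ
  obtain ⟨t, ht⟩ := exists_avoid_fin φ hM (Fintype.card σ) ((MvPolynomial.rename e) '' S)
    (hS.image _) (by
      rintro Q ⟨P, hP, rfl⟩ h
      exact h0 P hP (MvPolynomial.rename_injective e e.injective (by rw [h, map_zero])))
  refine ⟨fun s => t (e s), fun P hP h => ht _ ⟨P, hP, rfl⟩ ?_⟩
  rw [MvPolynomial.eval_rename]
  exact h

/-! ### The parametrization -/

section T

variable {A B : Type} [CommRing A] [CommRing B] {n : ℕ}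

/-- the quadratic form -/
def qf (c t : Fin n → A) : A := ∑ i, c i * t i ^ 2

/-- the bilinear form -/
def bf (c u t : Fin n → A) : A := ∑ i, c i * u i * t i

/-- the parametrization -/
def Tf (c t y : Fin n → A) : Fin n → A := fun i => qf c t * y i - 2 * bf c y t * t i

lemma map_qf (f : A →+* B) (c t : Fin n → A) : f (qf c t) = qf (fun i => f (c i)) (fun i => f (t i)) := by
  simp [qf]

lemma map_bf (f : A →+* B) (c u t : Fin n → A) :
    f (bf c u t) = bf (fun i => f (c i)) (fun i => f (u i)) (fun i => f (t i)) := by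
  simp [bf]

lemma map_Tf (f : A →+* B) (c t y : Fin n → A) (i : Fin n) :
    f (Tf c t y i) = Tf (fun i => f (c i)) (fun i => f (t i)) (fun i => f (y i)) i := by
  simp only [Tf, map_sub, map_mul, map_qf, map_bf, map_ofNat]

lemma qf_lin (c y t : Fin n → A) (α β : A) :
    qf c (fun i => α * y i - β * t i) = α ^ 2 * qf c y - 2 * α * β * bf c y t + β ^ 2 * qf c t := by
  simp only [qf, bf, Finset.mul_sum]
  rw [← Finset.sum_sub_distrib, ← Finset.sum_add_distrib]
  exact Finset.sum_congr rfl fun i _ => by ring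

lemma bf_lin (c u y t : Fin n → A) (α β : A) :
    bf c u (fun i => α * y i - β * t i) = α * bf c u y - β * bf c u t := by
  simp only [bf, Finset.mul_sum]
  rw [← Finset.sum_sub_distrib]
  exact Finset.sum_congr rfl fun i _ => by ring

lemma bf_self (c y : Fin n → A) : bf c y y = qf c y := by
  simp only [bf, qf]
  exact Finset.sum_congr rfl fun i _ => by ring

lemma qf_Tf (c t y : Fin n → A) : qf c (Tf c t y) = qf c t ^ 2 * qf c y := by
  have : Tf c t y = fun i => qf c t * y i - (2 * bf c y t) * t i := by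
    funext i; simp [Tf]
  rw [this, qf_lin]
  ring

/-- the inverse of the parametrization -/
lemma Tf_inv (c y z : Fin n → A) (μ : A) (hy : qf c y = 0) (hz : qf c z = 0)
    (hμ : -2 * μ ^ 2 * bf c y z = 1) (i : Fin n) :
    Tf c (fun i => 1 * y i - μ * z i) y i = z i := by
  simp only [Tf]
  rw [qf_lin, bf_lin, bf_self, hy, hz]
  linear_combination (z i) * hμ

end T

/-- Nonvanishing of the second form. -/
lemma exists_bf_Tf_ne {Ω : Type} [Field Ω] [CharZero Ω] {n : ℕ} (hn : 3 ≤ n) (c y y' : Fin n → Ω)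
    (hc : ∀ i, c i ≠ 0) (hy : y ≠ 0) (hy' : y' ≠ 0) : ∃ v : Fin n → Ω, bf c y (Tf c v y') ≠ 0 := by
  classical
  by_contra hcon
  push Not at hcon
  have key : ∀ v : Fin n → Ω, qf c v * bf c y y' - 2 * bf c y' v * bf c y v = 0 := by
    intro v
    have h := hcon v
    have h2 : Tf c v y' = fun i => qf c v * y' i - (2 * bf c y' v) * v i := by
      funext i; simp [Tf]
    rw [h2, bf_lin] at h
    exact h
  set β := bf c y y' with hβ
  have hb1 : ∀ (u : Fin n → Ω) (i : Fin n) (a : Ω), bf c u (Pi.single i a) = c i * u i * a := by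
    intro u i a
    rw [bf, Finset.sum_eq_single i]
    · simp
    · intro j _ hj; simp [Pi.single_eq_of_ne hj]
    · intro h; exact absurd (Finset.mem_univ i) h
  have hq1 : ∀ (i : Fin n) (a : Ω), qf c (Pi.single i a) = c i * a ^ 2 := by
    intro i a
    rw [qf, Finset.sum_eq_single i]
    · simp
    · intro j _ hj; simp [Pi.single_eq_of_ne hj]
    · intro h; exact absurd (Finset.mem_univ i) h
  -- diagonal
  have hd : ∀ i, β = 2 * c i * y' i * y i := by
    intro i
    have h := key (Pi.single i 1)
    rw [hb1, hb1, hq1] at h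
    have hci := hc i
    have h3 : c i * (β - 2 * c i * y' i * y i) = 0 := by linear_combination h
    exact sub_eq_zero.1 ((mul_eq_zero.1 h3).resolve_left hci)
  have ho : ∀ i j, i ≠ j → y' i * y j + y' j * y i = 0 := by
    intro i j hij
    have h := key (fun k => 1 * (Pi.single i 1 : Fin n → Ω) k - (-1) * (Pi.single j 1 : Fin n → Ω) k)
    rw [bf_lin, bf_lin, qf_lin, hb1, hb1, hb1, hb1, hb1, hq1, hq1, Pi.single_eq_of_ne hij.symm] at h
    have hi := hd i
    have hj := hd j
    have h3 : c i * (c j * (y' i * y j + y' j * y i)) = 0 := by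
      linear_combination (-1 / 2) * h + (1 / 2) * c i * hi + (1 / 2) * c j * hj
    exact (mul_eq_zero.1 ((mul_eq_zero.1 h3).resolve_left (hc i))).resolve_left (hc j)
  by_cases hβ0 : β = 0
  · obtain ⟨i, hi⟩ := Function.ne_iff.1 hy
    simp only [Pi.zero_apply] at hi
    have hi' : y' i = 0 := by
      have h := hd i
      rw [hβ0] at h
      by_contra h'
      have : 2 * c i * y' i * y i ≠ 0 := by
        refine mul_ne_zero (mul_ne_zero (mul_ne_zero two_ne_zero (hc i)) h') hi
      exact this h.symm
    refine hy' (funext fun j => ?_)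
    by_cases hij : i = j
    · rw [← hij]; exact hi'
    · have h := ho i j hij
      rw [hi', zero_mul, zero_add] at h
      exact (mul_eq_zero.1 h).resolve_right hi
  · have hne : ∀ i, y i ≠ 0 ∧ y' i ≠ 0 := by
      intro i
      constructor
      · intro h; exact hβ0 (by rw [hd i, h, mul_zero])
      · intro h; exact hβ0 (by rw [hd i, h]; ring)
    set i0 : Fin n := ⟨0, by omega⟩
    set i1 : Fin n := ⟨1, by omega⟩
    set i2 : Fin n := ⟨2, by omega⟩
    have h01 := ho i0 i1 (by simp [i0, i1, Fin.ext_iff])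
    have h02 := ho i0 i2 (by simp [i0, i2, Fin.ext_iff])
    have h12 := ho i1 i2 (by simp [i1, i2, Fin.ext_iff])
    have : y' i0 * y' i1 * y i2 = 0 := by
      -- y'0 y1 = - y'1 y0 ; y'0 y2 = - y'2 y0 ; y'1 y2 = - y'2 y1
      have e1 : y' i0 * y' i1 * y i2 + y' i0 * y' i1 * y i2 = 0 := by
        linear_combination (y' i1) * h02 - (y' i2) * h01 + (y' i0) * h12
      have : (2 : Ω) * (y' i0 * y' i1 * y i2) = 0 := by rw [two_mul]; exact e1
      exact (mul_eq_zero.1 this).resolve_left two_ne_zero
    rcases mul_eq_zero.1 this with h | h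
    · rcases mul_eq_zero.1 h with h | h
      · exact (hne i0).2 h
      · exact (hne i1).2 h
    · exact (hne i2).1 h

end Pool.Agent.Helper49.W4
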